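import Pool.Agent.ZRT.StmtsA
import Pool.Agent.Helper60_MVS.UNQ
import Pool.Agent.Helper36_RF.Chr

/-! Row XSH of the squad ZRT (MP_33f2b9_gt): restarting a geodesic. -/

noncomputable section

open scoped ContDiff Topology RealInnerProductSpace
open Set MeasureTheory

namespace Pool.Agent.ZRT.H29

open Pool.Agent.RF Pool.Agent.MVS Pool.Agent.ZRT

theorem chris_neg (G : E5 → Bil E5) (x a : E5) : chris G x (-a) (-a) = chris G x a a := by
  have h : (-a) = (-1 : ℝ) • a := by simp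
  rw [h, chris_smul_left, chris_smul_right, smul_smul]
  norm_num

/-- uniqueness of geodesics, forward half -/
theorem geo_unq_pos {G : E5 → Bil E5} (hG : IsCyl G) {c₁ c₂ d₁ d₂ : ℝ → E5}
    (m1 : ∀ t, c₁ t ∈ Om (Fin 5)) (m2 : ∀ t, c₂ t ∈ Om (Fin 5))
    (h1 : ∀ t, HasDerivAt c₁ (d₁ t) t)
    (h1' : ∀ t, HasDerivAt d₁ (- chris G (c₁ t) (d₁ t) (d₁ t)) t)
    (h2 : ∀ t, HasDerivAt c₂ (d₂ t) t)
    (h2' : ∀ t, HasDerivAt d₂ (- chris G (c₂ t) (d₂ t) (d₂ t)) t)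
    (h0 : c₁ 0 = c₂ 0) (h0' : d₁ 0 = d₂ 0) {s : ℝ} (hs : 0 ≤ s) : c₁ s = c₂ s ∧ d₁ s = d₂ s :=
  Pool.Agent.MVS.H60.unq G hG s hs c₁ c₂ d₁ d₂ (fun t _ => ⟨m1 t, m2 t⟩)
    (fun t _ => ⟨(h1 t).hasDerivWithinAt, (h1' t).hasDerivWithinAt⟩)
    (fun t _ => ⟨(h2 t).hasDerivWithinAt, (h2' t).hasDerivWithinAt⟩) h0 h0' s ⟨hs, le_refl s⟩

theorem rev_d {c d : ℝ → E5} (h : ∀ t, HasDerivAt c (d t) t) (t : ℝ) :
    HasDerivAt (fun r : ℝ => c (-r)) (-(d (-t))) t := by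
  have h1 : HasDerivAt (fun r : ℝ => c (-r)) ((-1 : ℝ) • d (-t)) t :=
    (h (-t)).scomp t (hasDerivAt_neg t)
  rwa [neg_one_smul] at h1

/-- uniqueness of geodesics -/
theorem geo_unq {G : E5 → Bil E5} (hG : IsCyl G) {c₁ c₂ d₁ d₂ : ℝ → E5}
    (m1 : ∀ t, c₁ t ∈ Om (Fin 5)) (m2 : ∀ t, c₂ t ∈ Om (Fin 5))
    (h1 : ∀ t, HasDerivAt c₁ (d₁ t) t)
    (h1' : ∀ t, HasDerivAt d₁ (- chris G (c₁ t) (d₁ t) (d₁ t)) t)
    (h2 : ∀ t, HasDerivAt c₂ (d₂ t) t)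
    (h2' : ∀ t, HasDerivAt d₂ (- chris G (c₂ t) (d₂ t) (d₂ t)) t)
    (h0 : c₁ 0 = c₂ 0) (h0' : d₁ 0 = d₂ 0) (s : ℝ) : c₁ s = c₂ s ∧ d₁ s = d₂ s := by
  rcases le_total 0 s with hs | hs
  · exact geo_unq_pos hG m1 m2 h1 h1' h2 h2' h0 h0' hs
  · have key := geo_unq_pos hG (c₁ := fun r => c₁ (-r)) (c₂ := fun r => c₂ (-r))
      (d₁ := fun r => -(d₁ (-r))) (d₂ := fun r => -(d₂ (-r)))
      (fun t => m1 _) (fun t => m2 _) (rev_d h1)
      (fun t => by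
        have h := (rev_d h1' t).neg
        rw [neg_neg] at h
        change HasDerivAt (fun r : ℝ => -(d₁ (-r)))
          (- chris G (c₁ (-t)) (-(d₁ (-t))) (-(d₁ (-t)))) t
        rw [chris_neg]
        exact h)
      (rev_d h2)
      (fun t => by
        have h := (rev_d h2' t).neg
        rw [neg_neg] at h
        change HasDerivAt (fun r : ℝ => -(d₂ (-r)))
          (- chris G (c₂ (-t)) (-(d₂ (-t))) (-(d₂ (-t)))) t
        rw [chris_neg]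
        exact h)
      (by simpa using h0) (by simpa using h0') (s := -s) (by linarith)
    simpa using key

theorem xsh (xb1 : Xb1Statement) : XshStatement := by
  intro G ex hG hex m hm v t s
  obtain ⟨-, -, hc, hd, -, -⟩ := xb1 G ex hG hex m hm
  have hx : ex (m, t • v) ∈ Om (Fin 5) := hex.mem m hm _
  obtain ⟨-, h0, hc1, hd1, -, -⟩ := xb1 G ex hG hex _ hx
  have key := geo_unq hG
    (c₁ := fun r : ℝ => ex (ex (m, t • v), r • Tf ex m v t))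
    (c₂ := fun r : ℝ => ex (m, (t + r) • v))
    (d₁ := fun r : ℝ => Tf ex (ex (m, t • v)) (Tf ex m v t) r)
    (d₂ := fun r : ℝ => Tf ex m v (t + r))
    (fun r => hex.mem _ hx _) (fun r => hex.mem m hm _)
    (hc1 _) (hd1 _)
    (fun r => HasDerivAt.comp_const_add t r (hc v (t + r)))
    (fun r => HasDerivAt.comp_const_add t r (hd v (t + r)))
    (by simp only [zero_smul, add_zero]; exact hex.zero _ hx)
    (by
      simp only [add_zero]
      change dE ex (ex (m, t • v)) ((0 : ℝ) • Tf ex m v t) (Tf ex m v t) = Tf ex m v t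
      rw [zero_smul]
      exact h0 _) s
  exact key

end Pool.Agent.ZRT.H29
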